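import Pool.Agent.W434.BW.StmA

/-! Project BW: BW-TERN, no surjective double action on a simple algebra. -/

set_option autoImplicit false

namespace Pool.Agent.W11.BWT

open Pool.Agent.W434.BW

theorem tern (hF : S_fun) : S_tern := by
  intro Ω ar u P S Q _ _ _ _ _ p s q φ hp hs hq hpA hsA hqA hsS hqS hN hφ hsx hsy
  by_contra hcon
  push Not at hcon
  obtain ⟨z0, z1, hz⟩ := hcon
  -- (1) injectivity
  have hinj : ∀ x : P, Function.Injective (φ x) := by
    intro x
    have hhom : ∀ ω (y : Fin (ar ω) → S), φ x (s ω y) = q ω (fun i => φ x (y i)) := by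
      intro ω y
      have := hφ ω (fun _ => x) y
      rwa [hp.1 ω x] at this
    have hker := hsS (fun y y' => φ x y = φ x y')
      ⟨fun _ => rfl, fun h => h.symm, fun h h' => h.trans h'⟩
      (by
        intro ω y y' h
        show φ x (s ω y) = φ x (s ω y')
        rw [hhom, hhom]
        congr 1
        funext i
        exact h i)
    rcases hker with h | h
    · exact fun y y' hy => h y y' hy
    · exfalso
      obtain ⟨y0, h0⟩ := hsx x z0
      obtain ⟨y1, h1⟩ := hsx x z1
      exact hz (by rw [← h0, ← h1]; exact h y0 y1)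
  -- (2) the kernel of the first variable
  have hker : ∀ y y' : S, ∀ x x' : P, φ x y = φ x' y → φ x y' = φ x' y' := by
    intro y y' x x' hxx
    by_cases hy : y = y'
    · rw [← hy]; exact hxx
    have hR := hF Ω ar u Q Q q q (fun z z' => ∃ x, z = φ x y ∧ z' = φ x y') hq hq hqA hqA hqS
      (by
        intro ω z z' h
        choose X h1 h2 using h
        refine ⟨p ω X, ?_, ?_⟩
        · have := hφ ω X (fun _ => y)
          rw [hs.1 ω y] at this
          rw [this]
          congr 1
          funext i
          exact h1 i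
        · have := hφ ω X (fun _ => y')
          rw [hs.1 ω y'] at this
          rw [this]
          congr 1
          funext i
          exact h2 i)
      ⟨fun z => by
        obtain ⟨x, hx⟩ := hsy y z
        exact ⟨φ x y', x, hx.symm, rfl⟩, fun z => by
        obtain ⟨x, hx⟩ := hsy y' z
        exact ⟨φ x y, x, rfl, hx.symm⟩⟩
    rcases hR with h | ⟨f, hf⟩
    · exfalso
      obtain ⟨x, h1, h2⟩ := h z0 z0
      exact hy (hinj x (h1.symm.trans h2))
    · have h1 := (hf (φ x y) (φ x y')).1 ⟨x, rfl, rfl⟩
      have h2 := (hf (φ x' y) (φ x' y')).1 ⟨x', rfl, rfl⟩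
      rw [h1, h2, hxx]
  -- (3) the Latin square
  obtain ⟨x0⟩ := (inferInstance : Nonempty P)
  obtain ⟨y0⟩ := (inferInstance : Nonempty S)
  choose X hX using hsy y0
  choose Y hY using hsx x0
  have hX' : ∀ z, φ (X z) y0 = z := hX
  refine hz (hN (fun z w => φ (X z) (Y w)) ?_ ?_ ?_ z0 z1)
  · intro ω z w
    have e1 : φ (p ω (fun i => X (z i))) y0 = φ (X (q ω z)) y0 := by
      have := hφ ω (fun i => X (z i)) (fun _ => y0)
      rw [hs.1 ω y0] at this
      rw [this, hX']
      congr 1
      funext i
      exact hX' (z i)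
    have e2 : s ω (fun i => Y (w i)) = Y (q ω w) := by
      apply hinj x0
      have := hφ ω (fun _ => x0) (fun i => Y (w i))
      rw [hp.1 ω x0] at this
      rw [this, hY]
      congr 1
      funext i
      exact hY (w i)
    show φ (X (q ω z)) (Y (q ω w)) = _
    rw [← hker y0 (Y (q ω w)) _ _ e1, ← e2]
    exact hφ ω _ _
  · intro z
    refine Finite.injective_iff_bijective.1 ?_
    intro w w' h
    have h1 : Y w = Y w' := hinj (X z) h
    rw [← hY w, ← hY w', h1]
  · intro w
    refine Finite.injective_iff_bijective.1 ?_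
    intro z z' h
    have h1 := hker (Y w) y0 _ _ h
    rwa [hX', hX'] at h1

end Pool.Agent.W11.BWT
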